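import Mathlib

open Cardinal Ordinal

namespace Pool.Agent.Results.MP_6e75db_lc.SpecialNotEmbedding

universe u v

/-! ### Trees -/

/-- A tree: a partial order in which the strict predecessors of each node form a well-order. -/
def IsTree (T : Type u) [PartialOrder T] : Prop :=
  ∀ x : T, IsWellOrder (Set.Iio x) (· < ·)

/-- The height of a node: the order type of the set of its strict predecessors. -/
noncomputable def nodeHeight {T : Type u} [PartialOrder T] (hT : IsTree T) (x : T) :
    Ordinal.{u} :=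
  @Ordinal.type (Set.Iio x) (· < ·) (hT x)

/-- The level `T_α`. -/
def Level {T : Type u} [PartialOrder T] (hT : IsTree T) (α : Ordinal.{u}) : Set T :=
  {x | nodeHeight hT x = α}

/-- The height of the tree is `θ`: `θ` is the least `α` with `T_α = ∅`. -/
def HasHeight {T : Type u} [PartialOrder T] (hT : IsTree T) (θ : Ordinal.{u}) : Prop :=
  IsLeast {α | Level hT α = ∅} θ

/-- A normal tree of height `θ`: it has one node on level `0`, every node is comparable with some
node on every level below `θ`, and two distinct nodes on a limit level `α` have different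
predecessors on some level `β < α`. -/
def IsNormal {T : Type u} [PartialOrder T] (hT : IsTree T) (θ : Ordinal.{u}) : Prop :=
  #(Level hT 0) = 1 ∧
  (∀ x : T, ∀ α < θ, ∃ y ∈ Level hT α, x ≤ y ∨ y ≤ x) ∧
  (∀ α : Ordinal.{u}, Order.IsSuccLimit α → ∀ x ∈ Level hT α, ∀ y ∈ Level hT α, x ≠ y →
    ∃ β < α, ∃ x' ∈ Level hT β, ∃ y' ∈ Level hT β, x' < x ∧ y' < y ∧ x' ≠ y')

/-- An `(ω₁, ≤ ℵ₁)`-Aronszajn tree: a normal tree of height `ω₁` whose levels all have size
at most `ℵ₁` and which has no branch (maximal chain) of size `ℵ₁`. -/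
def IsAronszajn {T : Type u} [PartialOrder T] (hT : IsTree T) : Prop :=
  HasHeight hT (Ordinal.omega 1) ∧ IsNormal hT (Ordinal.omega 1) ∧
  (∀ α, #(Level hT α) ≤ Cardinal.aleph 1) ∧
  (∀ B : Set T, IsMaxChain (· ≤ ·) B → #B ≠ Cardinal.aleph 1)

/-- A (not necessarily normal) `ω₁`-tree: a tree of height `ω₁` with all levels countable. -/
def IsOmegaOneTree {T : Type u} [PartialOrder T] (hT : IsTree T) : Prop :=
  HasHeight hT (Ordinal.omega 1) ∧ ∀ α, (Level hT α).Countable

/-- `S` is special: it is a union of countably many antichains. -/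
def IsSpecial (S : Type u) [PartialOrder S] : Prop :=
  ∃ A : ℕ → Set S, (∀ n, IsAntichain (· ≤ ·) (A n)) ∧ ⋃ n, A n = Set.univ

/-- `S` embeds into `T`: there is an injection `e` with `s < s'` iff `e s < e s'`. -/
def EmbedsInto (S : Type u) (T : Type v) [PartialOrder S] [PartialOrder T] : Prop :=
  ∃ e : S → T, Function.Injective e ∧ ∀ s s', s < s' ↔ e s < e s'

/-! ### Forcing -/

/-- A `P`-name for a function from `X` to `Y`, given through its forcing relation: `F p x y` says
that `p` forces the value at `x` to be `y`. Stronger conditions are smaller. The relation is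
inherited by stronger conditions, it holds at `p` as soon as it holds densely below `p`, it is
dense to decide each value, and no condition decides two different values. -/
def IsFunctionName {P : Type u} [Preorder P] {X Y : Type u} (F : P → X → Y → Prop) : Prop :=
  (∀ p q x y, q ≤ p → F p x y → F q x y) ∧
  (∀ p x y, (∀ q ≤ p, ∃ r ≤ q, F r x y) → F p x y) ∧
  (∀ p x, ∃ q ≤ p, ∃ y, F q x y) ∧
  (∀ p x y y', F p x y → F p x y' → y = y')

/-- The forcing notion `P` adds no new real: for every name for a function from the natural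
numbers to the natural numbers it is dense to force this function to be equal to a function of
the ground model. -/
def AddsNoReal (P : Type u) [Preorder P] : Prop :=
  ∀ F : P → ULift.{u} ℕ → ULift.{u} ℕ → Prop, IsFunctionName F →
    ∀ p, ∃ q ≤ p, ∃ f : ULift.{u} ℕ → ULift.{u} ℕ, ∀ n, F q n (f n)

/-- The forcing notion `P` makes `S` special in every generic extension: there is a name for a
function from `S` to the natural numbers which is forced to be injective on chains of `S`. -/
def ForcesSpecial (P : Type u) [Preorder P] (S : Type u) [PartialOrder S] : Prop :=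
  ∃ F : P → S → ULift.{u} ℕ → Prop, IsFunctionName F ∧
    ∀ p s s' n, s < s' → ¬ (F p s n ∧ F p s' n)

/-- `S` can be specialized without adding reals. -/
def SpecializableNoReals (S : Type u) [PartialOrder S] : Prop :=
  ∃ (P : Type u) (_ : Preorder P), Nonempty P ∧ AddsNoReal P ∧ ForcesSpecial P S

lemma IsSpecial.specializable {S : Type u} [PartialOrder S] (h : IsSpecial S) :
    SpecializableNoReals S := by
  obtain ⟨A, hA, hU⟩ := h
  have hex : ∀ s : S, ∃ n, s ∈ A n := by
    intro s
    have : s ∈ ⋃ n, A n := hU ▸ Set.mem_univ s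
    simpa using this
  choose g hg using hex
  refine ⟨PUnit, inferInstance, ⟨PUnit.unit⟩, ?_, ?_⟩
  · intro F hF p
    have h1 : ∀ n, ∃ y, F p n y := by
      intro n
      obtain ⟨q, _, y, hy⟩ := hF.2.2.1 p n
      exact ⟨y, hy⟩
    choose f hf using h1
    exact ⟨p, le_rfl, f, hf⟩
  · refine ⟨fun _ s n => n.down = g s, ⟨?_, ?_, ?_, ?_⟩, ?_⟩
    · intro p q x y _ h
      exact h
    · intro p x y h
      obtain ⟨r, _, hr⟩ := h p le_rfl
      exact hr
    · intro p x
      exact ⟨p, le_rfl, ⟨g x⟩, rfl⟩
    · intro p x y y' h h'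
      exact ULift.ext _ _ (h.trans h'.symm)
    · rintro p s s' n hs ⟨h1, h2⟩
      have h3 : s' ∈ A (g s) := by
        rw [← h1, h2]
        exact hg s'
      exact hA (g s) (hg s) h3 hs.ne hs.le

/-! ### The tree -/

/-- Nodes of the tree: a length `len`, an initial part of a branch of the binary tree below
position `om`, and finitely many markers at positions from `om` on. -/
@[ext]
structure Node {W : Type u} [LinearOrder W] (om : W) (j : W → W → Bool) where
  /-- the length of the node -/
  len : W
  /-- the bits below `om` -/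
  bit : W → Bool
  /-- the markers from `om` on -/
  mark : W → Option W
  bit_out : ∀ ξ, len ≤ ξ ∨ om ≤ ξ → bit ξ = false
  mark_out : ∀ ξ, len ≤ ξ ∨ ξ < om → mark ξ = none
  branch : ∃ w, ∀ ξ, ξ < len → ξ < om → bit ξ = j w ξ
  fin : {ξ | mark ξ ≠ none}.Finite
  cover : ∀ η, om ≤ η → η < len → ∃ ξ, ξ ≤ η ∧ ∃ c, mark ξ = some c ∧ η < c

namespace Node

variable {W : Type u} [LinearOrder W] {om : W} {j : W → W → Bool}

instance : PartialOrder (Node om j) where
  le x y := x.len ≤ y.len ∧ ∀ ξ, ξ < x.len → x.bit ξ = y.bit ξ ∧ x.mark ξ = y.mark ξ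
  le_refl x := ⟨le_rfl, fun _ _ => ⟨rfl, rfl⟩⟩
  le_trans x y z hxy hyz := ⟨hxy.1.trans hyz.1, fun ξ hξ =>
    ⟨(hxy.2 ξ hξ).1.trans (hyz.2 ξ (hξ.trans_le hxy.1)).1,
      (hxy.2 ξ hξ).2.trans (hyz.2 ξ (hξ.trans_le hxy.1)).2⟩⟩
  le_antisymm x y hxy hyx := by
    have hl : x.len = y.len := le_antisymm hxy.1 hyx.1
    refine Node.ext hl ?_ ?_
    · funext ξ
      rcases lt_or_ge ξ x.len with h | h
      · exact (hxy.2 ξ h).1
      · rw [x.bit_out ξ (Or.inl h), y.bit_out ξ (Or.inl (hl ▸ h))]
    · funext ξ
      rcases lt_or_ge ξ x.len with h | h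
      · exact (hxy.2 ξ h).2
      · rw [x.mark_out ξ (Or.inl h), y.mark_out ξ (Or.inl (hl ▸ h))]

lemma le_def {x y : Node om j} :
    x ≤ y ↔ x.len ≤ y.len ∧ ∀ ξ, ξ < x.len → x.bit ξ = y.bit ξ ∧ x.mark ξ = y.mark ξ := Iff.rfl

lemma eq_of_le_of_len {x y : Node om j} (h : x ≤ y) (hl : x.len = y.len) : x = y := by
  refine le_antisymm h ⟨hl.ge, fun ξ hξ => ?_⟩
  have := h.2 ξ (hl ▸ hξ)
  exact ⟨this.1.symm, this.2.symm⟩

lemma len_lt_of_lt {x y : Node om j} (h : x < y) : x.len < y.len :=
  lt_of_le_of_ne h.le.1 fun hl => h.ne (eq_of_le_of_len h.le hl)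

/-- Two nodes below a common node are comparable. -/
lemma le_of_le_le {x y z : Node om j} (hx : x ≤ z) (hy : y ≤ z) (hl : x.len ≤ y.len) : x ≤ y :=
  ⟨hl, fun ξ hξ =>
    ⟨(hx.2 ξ hξ).1.trans (hy.2 ξ (hξ.trans_le hl)).1.symm,
      (hx.2 ξ hξ).2.trans (hy.2 ξ (hξ.trans_le hl)).2.symm⟩⟩

/-- Restriction of a node to a smaller length. -/
def res (x : Node om j) (γ : W) (hγ : γ ≤ x.len) : Node om j where
  len := γ
  bit ξ := if ξ < γ then x.bit ξ else false
  mark ξ := if ξ < γ then x.mark ξ else none
  bit_out ξ hξ := by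
    split_ifs with h
    · rcases hξ with h1 | h1
      · exact absurd h h1.not_gt
      · exact x.bit_out ξ (Or.inr h1)
    · rfl
  mark_out ξ hξ := by
    split_ifs with h
    · rcases hξ with h1 | h1
      · exact absurd h h1.not_gt
      · exact x.mark_out ξ (Or.inr h1)
    · rfl
  branch := by
    obtain ⟨w, hw⟩ := x.branch
    refine ⟨w, fun ξ h1 h2 => ?_⟩
    rw [if_pos h1]
    exact hw ξ (h1.trans_le hγ) h2
  fin := by
    refine x.fin.subset ?_
    intro ξ hξ
    simp only [Set.mem_ofPred_eq, ne_eq, ite_eq_right_iff, Classical.not_imp] at hξ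
    exact hξ.2
  cover η h1 h2 := by
    obtain ⟨ξ, h3, c, h4, h5⟩ := x.cover η h1 (h2.trans_le hγ)
    refine ⟨ξ, h3, c, ?_, h5⟩
    rw [if_pos (h3.trans_lt h2)]
    exact h4

lemma res_le (x : Node om j) (γ : W) (hγ : γ ≤ x.len) : x.res γ hγ ≤ x :=
  ⟨hγ, fun ξ hξ => by
    change ξ < γ at hξ
    simp [res, hξ]⟩

lemma eq_res_of_le {x y : Node om j} (h : y ≤ x) : y = x.res y.len h.1 :=
  eq_of_le_of_len (le_of_le_le h (res_le x y.len h.1) le_rfl) rfl

/-- The strict predecessors of `x` are isomorphic to the positions below the length of `x`. -/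
def iioIso (x : Node om j) : Set.Iio x ≃o Set.Iio x.len where
  toFun y := ⟨y.1.len, len_lt_of_lt y.2⟩
  invFun γ := ⟨x.res γ.1 (le_of_lt γ.2), lt_of_le_of_ne (res_le x γ.1 _) (by
    intro h
    have h1 : γ.1 = x.len := congrArg Node.len h
    exact absurd γ.2 (by simp [h1]))⟩
  left_inv y := Subtype.ext (eq_res_of_le (le_of_lt y.2)).symm
  right_inv γ := rfl
  map_rel_iff' := by
    intro a b
    constructor
    · intro h
      exact le_of_le_le (le_of_lt a.2) (le_of_lt b.2) h
    · intro h
      exact h.1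

end Node

/-! ### General facts on heights -/

section general

variable {T : Type u} [PartialOrder T] (hT : IsTree T)

lemma nodeHeight_pred (x : T) (z : Set.Iio x) :
    nodeHeight hT z.1 = (@Ordinal.typein (Set.Iio x) (· < ·) (hT x)) z := by
  have := hT x
  have := hT z.1
  rw [← Ordinal.type_subrel]
  refine Ordinal.type_eq.2 ⟨?_⟩
  exact
    { toFun := fun y => ⟨⟨y.1, lt_trans y.2 z.2⟩, y.2⟩
      invFun := fun y => ⟨y.1.1, y.2⟩
      left_inv := fun _ => rfl
      right_inv := fun _ => rfl
      map_rel_iff' := Iff.rfl }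

lemma nodeHeight_lt {x y : T} (h : x < y) : nodeHeight hT x < nodeHeight hT y := by
  have := hT y
  have h1 := nodeHeight_pred hT y ⟨x, h⟩
  change nodeHeight hT x = _ at h1
  rw [h1]
  exact Ordinal.typein_lt_type _ _

lemma exists_pred {x : T} {α : Ordinal.{u}} (h : α ≤ nodeHeight hT x) :
    ∃ y ≤ x, nodeHeight hT y = α := by
  rcases h.eq_or_lt with h | h
  · exact ⟨x, le_rfl, h.symm⟩
  · have := hT x
    obtain ⟨z, hz⟩ := Ordinal.typein_surj (α := Set.Iio x) (· < ·) h
    refine ⟨z.1, le_of_lt z.2, ?_⟩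
    rw [nodeHeight_pred hT x z]
    exact hz

include hT in
lemma comparable_of_lt {x y z : T} (hx : x < z) (hy : y < z) : x < y ∨ x = y ∨ y < x := by
  have := hT z
  have h := @trichotomous_of (Set.Iio z) (· < ·) _ ⟨x, hx⟩ ⟨y, hy⟩
  rcases h with h | h | h
  · exact Or.inl h
  · exact Or.inr (Or.inl (congrArg Subtype.val h))
  · exact Or.inr (Or.inr h)

lemma lt_of_lt_of_le_of_height {x t z : T} (hx : x < z) (ht : t ≤ z)
    (hh : nodeHeight hT x < nodeHeight hT t) : x < t := by
  rcases ht.eq_or_lt with h | h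
  · exact h ▸ hx
  · rcases comparable_of_lt hT hx h with h1 | h1 | h1
    · exact h1
    · rw [h1] at hh
      exact absurd hh (lt_irrefl _)
    · exact absurd (nodeHeight_lt hT h1) hh.not_gt

end general

section main

set_option linter.unusedSectionVars false

variable {W : Type u} [LinearOrder W] [WellFoundedLT W] {om : W} {j : W → W → Bool}

lemma isTree_node : IsTree (Node om j) := fun x =>
  (Node.iioIso x).toRelIsoLT.toRelEmbedding.isWellOrder

lemma nodeHeight_node (x : Node om j) :
    nodeHeight (isTree_node (om := om) (j := j)) x =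
      Ordinal.typein (α := W) (· < ·) x.len := by
  have := isTree_node (om := om) (j := j) x
  exact Ordinal.type_eq.2 ⟨(Node.iioIso x).toRelIsoLT⟩

open Classical in
/-- Extension of a node to a larger length. -/
noncomputable def Node.ext' (x : Node om j) (γ : W) (hγ : x.len ≤ γ) : Node om j where
  len := γ
  bit ξ := if ξ < γ ∧ ξ < om then j x.branch.choose ξ else false
  mark ξ := if ξ < x.len then x.mark ξ else
    if ξ = max x.len om ∧ ξ < γ then some γ else none
  bit_out ξ hξ := by
    rw [if_neg]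
    rintro ⟨h1, h2⟩
    rcases hξ with h | h
    · exact h.not_gt h1
    · exact h.not_gt h2
  mark_out ξ hξ := by
    rcases hξ with h | h
    · rw [if_neg (hγ.trans h).not_gt, if_neg]
      rintro ⟨_, h2⟩
      exact h.not_gt h2
    · split_ifs with h1 h2
      · exact x.mark_out ξ (Or.inr h)
      · exact absurd h (h2.1 ▸ le_max_right _ _).not_gt
      · rfl
  branch := ⟨x.branch.choose, fun ξ h1 h2 => by rw [if_pos ⟨h1, h2⟩]⟩
  fin := by
    refine (x.fin.union (Set.finite_singleton (max x.len om))).subset ?_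
    intro ξ hξ
    simp only [Set.mem_ofPred_eq] at hξ
    by_cases h1 : ξ < x.len
    · rw [if_pos h1] at hξ
      exact Or.inl hξ
    · rw [if_neg h1] at hξ
      by_cases h2 : ξ = max x.len om ∧ ξ < γ
      · exact Or.inr h2.1
      · rw [if_neg h2] at hξ
        exact absurd rfl hξ
  cover η h1 h2 := by
    rcases lt_or_ge η x.len with h | h
    · obtain ⟨ξ, h3, c, h4, h5⟩ := x.cover η h1 h
      refine ⟨ξ, h3, c, ?_, h5⟩
      rw [if_pos (h3.trans_lt h)]
      exact h4
    · refine ⟨max x.len om, max_le h h1, γ, ?_, h2⟩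
      rw [if_neg (le_max_left _ _).not_gt, if_pos ⟨rfl, (max_le h h1).trans_lt h2⟩]

lemma Node.le_ext' (x : Node om j) (γ : W) (hγ : x.len ≤ γ) : x ≤ x.ext' γ hγ := by
  refine ⟨hγ, fun ξ hξ => ⟨?_, ?_⟩⟩
  · change x.bit ξ = if ξ < γ ∧ ξ < om then j x.branch.choose ξ else false
    split_ifs with h
    · exact x.branch.choose_spec ξ hξ h.2
    · refine x.bit_out ξ (Or.inr ?_)
      by_contra h1
      exact h ⟨hξ.trans_le hγ, not_le.1 h1⟩
  · change x.mark ξ = if ξ < x.len then x.mark ξ else _
    rw [if_pos hξ]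

lemma Node.exists_comparable (x : Node om j) (γ : W) :
    ∃ y : Node om j, y.len = γ ∧ (x ≤ y ∨ y ≤ x) := by
  rcases le_total x.len γ with h | h
  · exact ⟨x.ext' γ h, rfl, Or.inl (x.le_ext' γ h)⟩
  · exact ⟨x.res γ h, rfl, Or.inr (x.res_le γ h)⟩

/-- The node of length `b` for the least element `b`. -/
def rootNode (om b : W) (j : W → W → Bool) (hb : ∀ ξ, b ≤ ξ) : Node om j where
  len := b
  bit _ := false
  mark _ := none
  bit_out _ _ := rfl
  mark_out _ _ := rfl
  branch := ⟨b, fun ξ h _ => absurd h (hb ξ).not_gt⟩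
  fin := by simp
  cover η _ h := absurd h (hb η).not_gt

/-- The node of length `om` following the branch `w`. -/
def branchNode (om : W) (j : W → W → Bool) (w : W) : Node om j where
  len := om
  bit ξ := if ξ < om then j w ξ else false
  mark _ := none
  bit_out ξ h := by
    rw [if_neg]
    rcases h with h | h <;> exact h.not_gt
  mark_out _ _ := rfl
  branch := ⟨w, fun ξ h _ => by rw [if_pos h]⟩
  fin := by simp
  cover η h1 h2 := absurd h2 h1.not_gt

section special

/-- The finite set of markers. -/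
noncomputable def Node.marks (x : Node om j) : Finset W := x.fin.toFinset

lemma Node.mem_marks (x : Node om j) (ξ : W) : ξ ∈ x.marks ↔ x.mark ξ ≠ none := by
  simp [Node.marks]

open Classical in
/-- The set of values of markers, together with `om`. -/
noncomputable def Node.vals (x : Node om j) : Finset W :=
  insert om (x.marks.image fun ξ => (x.mark ξ).getD om)

lemma Node.vals_nonempty (x : Node om j) : x.vals.Nonempty := ⟨om, by simp [Node.vals]⟩

/-- The largest value of a marker (or `om`). -/
noncomputable def Node.top (x : Node om j) : W := x.vals.max' x.vals_nonempty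

lemma Node.om_le_top (x : Node om j) : om ≤ x.top :=
  Finset.le_max' _ _ (by simp [Node.vals])

lemma Node.len_le_top (x : Node om j) : x.len ≤ x.top := by
  by_contra h
  push Not at h
  obtain ⟨ξ, h3, c, h4, h5⟩ := x.cover x.top x.om_le_top h
  have h6 : c ∈ x.vals := by
    classical
    refine Finset.mem_insert_of_mem (Finset.mem_image.2 ⟨ξ, ?_, ?_⟩)
    · rw [x.mem_marks, h4]
      simp
    · rw [h4]
      rfl
  exact absurd (Finset.le_max' _ _ h6) h5.not_ge

lemma Node.marks_subset {x y : Node om j} (h : x ≤ y) : x.marks ⊆ y.marks := by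
  intro ξ hξ
  rw [Node.mem_marks] at hξ ⊢
  have h1 : ξ < x.len := by
    by_contra h2
    exact hξ (x.mark_out ξ (Or.inl (not_lt.1 h2)))
  rwa [← (h.2 ξ h1).2]

lemma Node.top_eq {x y : Node om j} (h : x ≤ y) (hc : x.marks.card = y.marks.card) :
    x.top = y.top := by
  have h1 : x.marks = y.marks := Finset.eq_of_subset_of_card_le (Node.marks_subset h) hc.ge
  have h2 : x.vals = y.vals := by
    classical
    unfold Node.vals
    congr 1
    rw [← h1]
    refine Finset.image_congr ?_
    intro ξ hξ
    have h3 : x.mark ξ ≠ none := (x.mem_marks ξ).1 hξ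
    have h4 : ξ < x.len := by
      by_contra h5
      exact h3 (x.mark_out ξ (Or.inl (not_lt.1 h5)))
    simp only
    rw [(h.2 ξ h4).2]
  unfold Node.top
  congr 1

lemma exists_specializing (hcount : ∀ w : W, (Set.Iic w).Countable) :
    ∃ f : Node om j → ℕ, ∀ x y, x < y → f x ≠ f y := by
  have h1 : ∀ w : W, ∃ e : Set.Iic w → ℕ, Function.Injective e := by
    intro w
    have := (hcount w).to_subtype
    exact exists_injective_nat _
  choose e he using h1
  refine ⟨fun x => Nat.pair x.marks.card (e x.top ⟨x.len, x.len_le_top⟩), ?_⟩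
  intro x y hxy heq
  have h2 := Nat.pair_eq_pair.1 heq
  have h3 := Node.top_eq hxy.le h2.1
  have h4 : ∀ (a b : W) (hab : a = b) (ha : x.len ≤ a) (hb : y.len ≤ b),
      e a ⟨x.len, ha⟩ = e b ⟨y.len, hb⟩ → x.len = y.len := by
    rintro a b rfl ha hb h5
    exact congrArg Subtype.val (he a h5)
  exact (Node.len_lt_of_lt hxy).ne (h4 _ _ h3 _ _ h2.2)

end special

lemma isSpecial_node (hcount : ∀ w : W, (Set.Iic w).Countable) : IsSpecial (Node om j) := by
  obtain ⟨f, hf⟩ := exists_specializing (om := om) (j := j) hcount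
  refine ⟨fun n => {x | f x = n}, ?_, ?_⟩
  · intro n x hx y hy hxy hle
    exact hf x y (lt_of_le_of_ne hle hxy) (hx.trans hy.symm)
  · ext x
    simp

lemma chain_countable (hcount : ∀ w : W, (Set.Iic w).Countable) (B : Set (Node om j))
    (hB : IsChain (· ≤ ·) B) : B.Countable := by
  obtain ⟨f, hf⟩ := exists_specializing (om := om) (j := j) hcount
  refine Set.MapsTo.countable_of_injOn (f := f) (t := Set.univ) (fun _ _ => Set.mem_univ _) ?_
    Set.countable_univ
  intro x hx y hy hxy
  by_contra hne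
  rcases hB hx hy hne with h | h
  · exact hf x y (lt_of_le_of_ne h hne) hxy
  · exact hf y x (lt_of_le_of_ne h (Ne.symm hne)) hxy.symm

section props

variable (hW : Ordinal.type (α := W) (· < ·) = Ordinal.omega 1)
  (hom : Ordinal.typein (α := W) (· < ·) om = Ordinal.omega0)
  (hj : ∀ w w', w ≠ w' → ∃ ξ, ξ < om ∧ j w ξ ≠ j w' ξ)

include hW

lemma card_W : #W = Cardinal.aleph 1 := by
  have h := congrArg Ordinal.card hW
  rw [Ordinal.card_type, Ordinal.card_omega] at h
  exact h

lemma countable_Iio (w : W) : (Set.Iio w).Countable := by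
  have h : Ordinal.typein (α := W) (· < ·) w < Ordinal.omega 1 := hW ▸ Ordinal.typein_lt_type _ w
  rw [← Cardinal.ord_aleph, Cardinal.lt_ord] at h
  have h2 : #(Set.Iio w) < Cardinal.aleph 1 := h
  rw [← Cardinal.succ_aleph0, Order.lt_succ_iff] at h2
  exact Cardinal.le_aleph0_iff_set_countable.1 h2

lemma countable_Iic (w : W) : (Set.Iic w).Countable := by
  rw [← Set.Iio_union_right]
  exact (countable_Iio hW w).union (Set.countable_singleton w)

lemma exists_typein {α : Ordinal.{u}} (h : α < Ordinal.omega 1) :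
    ∃ w : W, Ordinal.typein (α := W) (· < ·) w = α :=
  Ordinal.typein_surj (α := W) (· < ·) (hW ▸ h)

lemma nodeHeight_node_lt (x : Node om j) : nodeHeight isTree_node x < Ordinal.omega 1 := by
  rw [nodeHeight_node, ← hW]
  exact Ordinal.typein_lt_type _ _

lemma exists_min : ∃ b : W, ∀ ξ, b ≤ ξ := by
  obtain ⟨b, hb⟩ := exists_typein hW (Ordinal.omega_pos 1)
  refine ⟨b, fun ξ => not_lt.1 fun h => ?_⟩
  have := (Ordinal.typein_lt_typein (α := W) (· < ·)).2 h
  rw [hb] at this
  exact absurd this (not_lt.2 (bot_le (α := Ordinal)))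

lemma level_nonempty (x : Node om j) {α : Ordinal.{u}} (h : α < Ordinal.omega 1) :
    ∃ y ∈ Level (isTree_node (om := om) (j := j)) α, x ≤ y ∨ y ≤ x := by
  obtain ⟨w, hw⟩ := exists_typein hW h
  obtain ⟨y, hy, hxy⟩ := x.exists_comparable w
  refine ⟨y, ?_, hxy⟩
  change nodeHeight _ y = α
  rw [nodeHeight_node, hy, hw]

lemma hasHeight_node : HasHeight (isTree_node (om := om) (j := j)) (Ordinal.omega 1) := by
  refine ⟨?_, ?_⟩
  · rw [Set.mem_ofPred_eq, Set.eq_empty_iff_forall_notMem]
    intro x hx
    exact (nodeHeight_node_lt hW x).ne hx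
  · intro α hα
    by_contra hlt
    push Not at hlt
    obtain ⟨b, hb⟩ := exists_min hW
    obtain ⟨y, hy, _⟩ := level_nonempty hW (rootNode om b j hb) hlt
    rw [Set.mem_ofPred_eq] at hα
    rw [hα] at hy
    exact hy

omit hW in
lemma eq_of_height_zero {x y : Node om j}
    (hx : nodeHeight (isTree_node (om := om) (j := j)) x = 0)
    (hy : nodeHeight (isTree_node (om := om) (j := j)) y = 0) : x = y := by
  rw [nodeHeight_node] at hx hy
  have hl : x.len = y.len := Ordinal.typein_injective (α := W) (· < ·) (hx.trans hy.symm)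
  refine Node.eq_of_le_of_len ⟨hl.le, fun ξ hξ => ?_⟩ hl
  have := (Ordinal.typein_lt_typein (α := W) (· < ·)).2 hξ
  rw [hx] at this
  exact absurd this (not_lt.2 (bot_le (α := Ordinal)))

lemma isNormal_node : IsNormal (isTree_node (om := om) (j := j)) (Ordinal.omega 1) := by
  obtain ⟨b, hb⟩ := exists_min hW
  refine ⟨?_, ?_, ?_⟩
  · rw [Cardinal.eq_one_iff_unique]
    obtain ⟨y, hy, _⟩ := level_nonempty hW (rootNode om b j hb) (Ordinal.omega_pos 1)
    exact ⟨⟨fun x y => Subtype.ext (eq_of_height_zero x.2 y.2)⟩, ⟨⟨y, hy⟩⟩⟩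
  · intro x α hα
    exact level_nonempty hW x hα
  · intro α hα x hx y hy hxy
    have hx' : Ordinal.typein (α := W) (· < ·) x.len = α := (nodeHeight_node x).symm.trans hx
    have hy' : Ordinal.typein (α := W) (· < ·) y.len = α := (nodeHeight_node y).symm.trans hy
    have hl : x.len = y.len := Ordinal.typein_injective (α := W) (· < ·) (hx'.trans hy'.symm)
    have hex : ∃ ξ, ξ < x.len ∧ ¬ (x.bit ξ = y.bit ξ ∧ x.mark ξ = y.mark ξ) := by
      by_contra hcon
      push Not at hcon
      exact hxy (Node.eq_of_le_of_len ⟨hl.le, fun ξ hξ => hcon ξ hξ⟩ hl)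
    obtain ⟨ξ, hξ, hne⟩ := hex
    have h1 : Ordinal.typein (α := W) (· < ·) ξ < α := by
      rw [← hx']
      exact (Ordinal.typein_lt_typein (α := W) (· < ·)).2 hξ
    have h2 : Order.succ (Ordinal.typein (α := W) (· < ·) ξ) < α := hα.succ_lt h1
    have h3 : α < Ordinal.omega 1 := by
      rw [← hx']
      exact hW ▸ Ordinal.typein_lt_type _ _
    obtain ⟨γ, hγ⟩ := exists_typein hW (h2.trans h3)
    have h4 : γ < x.len := by
      rw [← Ordinal.typein_lt_typein (α := W) (· < ·), hx', hγ]
      exact h2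
    have h5 : ξ < γ := by
      rw [← Ordinal.typein_lt_typein (α := W) (· < ·), hγ]
      exact Order.lt_succ _
    refine ⟨_, h2, x.res γ h4.le, ?_, y.res γ (hl ▸ h4.le), ?_, ?_, ?_, ?_⟩
    · change nodeHeight _ (x.res γ h4.le) = _
      rw [nodeHeight_node, ← hγ]
      rfl
    · change nodeHeight _ (y.res γ (hl ▸ h4.le)) = _
      rw [nodeHeight_node, ← hγ]
      rfl
    · refine lt_of_le_of_ne (x.res_le _ _) fun h => ?_
      exact h4.ne (congrArg Node.len h)
    · refine lt_of_le_of_ne (y.res_le _ _) fun h => ?_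
      exact h4.ne ((congrArg Node.len h).trans hl.symm)
    · intro h
      apply hne
      have e1 := congrFun (congrArg Node.bit h) ξ
      have e2 := congrFun (congrArg Node.mark h) ξ
      simp only [Node.res, if_pos h5] at e1 e2
      exact ⟨e1, e2⟩

lemma card_node_le : #(Node om j) ≤ Cardinal.aleph 1 := by
  classical
  let F : Node om j → W × W × Finset (W × W) := fun x =>
    (x.len, x.branch.choose, x.marks.image fun ξ => (ξ, (x.mark ξ).getD om))
  have hF : Function.Injective F := by
    intro x y hxy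
    have h1 : x.len = y.len := congrArg (fun t => t.1) hxy
    have h2 : x.branch.choose = y.branch.choose := congrArg (fun t => t.2.1) hxy
    have h3 : (x.marks.image fun ξ => (ξ, (x.mark ξ).getD om)) =
      (y.marks.image fun ξ => (ξ, (y.mark ξ).getD om)) := congrArg (fun t => t.2.2) hxy
    have key : ∀ (z : Node om j) (ξ c : W),
        (ξ, c) ∈ (z.marks.image fun ξ => (ξ, (z.mark ξ).getD om)) ↔ z.mark ξ = some c := by
      intro z ξ c
      rw [Finset.mem_image]
      constructor
      · rintro ⟨a, ha, hab⟩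
        rw [z.mem_marks] at ha
        obtain ⟨d, hd⟩ := Option.ne_none_iff_exists'.1 ha
        rw [hd] at hab
        simp only [Option.getD_some, Prod.mk.injEq] at hab
        rw [← hab.1, hd, hab.2]
      · intro h
        refine ⟨ξ, ?_, ?_⟩
        · rw [z.mem_marks, h]
          simp
        · rw [h]
          rfl
    refine Node.ext h1 ?_ ?_
    · funext ξ
      by_cases h4 : ξ < x.len ∧ ξ < om
      · rw [x.branch.choose_spec ξ h4.1 h4.2, y.branch.choose_spec ξ (h1 ▸ h4.1) h4.2, h2]
      · have h5 : x.len ≤ ξ ∨ om ≤ ξ := by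
          by_contra h6
          push Not at h6
          exact h4 h6
        rw [x.bit_out ξ h5, y.bit_out ξ (h1 ▸ h5)]
    · funext ξ
      ext c
      rw [← key x ξ c, ← key y ξ c, h3]
  refine (Cardinal.mk_le_of_injective hF).trans ?_
  have hinf : Infinite W := by
    rw [Cardinal.infinite_iff, card_W hW]
    exact Cardinal.aleph0_le_aleph 1
  simp only [Cardinal.mk_prod, Cardinal.lift_id, Cardinal.mk_finset_of_infinite, card_W hW,
    Cardinal.mul_eq_self (Cardinal.aleph0_le_aleph 1), le_refl]

lemma isAronszajn_node : IsAronszajn (isTree_node (om := om) (j := j)) := by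
  refine ⟨hasHeight_node hW, isNormal_node hW, ?_, ?_⟩
  · intro α
    exact (Cardinal.mk_set_le _).trans (card_node_le hW)
  · intro B hB
    have h1 := chain_countable (countable_Iic hW) B hB.isChain
    have h2 : #B ≤ ℵ₀ := Cardinal.le_aleph0_iff_set_countable.2 h1
    exact (h2.trans_lt (Cardinal.aleph0_lt_aleph_one)).ne

omit hW in
include hom in
lemma finite_Iio {w : W} (hw : w < om) : (Set.Iio w).Finite := by
  have h1 : Ordinal.typein (α := W) (· < ·) w < Ordinal.omega0 := by
    rw [← hom]
    exact (Ordinal.typein_lt_typein (α := W) (· < ·)).2 hw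
  obtain ⟨n, hn⟩ := Ordinal.lt_omega0.1 h1
  have h2 : #(Set.Iio w) = n := by
    have h3 := congrArg Ordinal.card hn
    rw [Ordinal.card_nat] at h3
    exact h3
  have h4 : #(Set.Iio w) < ℵ₀ := h2 ▸ Cardinal.natCast_lt_aleph0
  exact Cardinal.lt_aleph0_iff_set_finite.1 h4

include hom in
lemma countable_short : {x : Node om j | x.len < om}.Countable := by
  have h1 : {x : Node om j | x.len < om} = ⋃ γ ∈ Set.Iio om, {x : Node om j | x.len = γ} := by
    ext x
    simp
  rw [h1]
  refine (countable_Iio hW om).biUnion fun γ hγ => ?_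
  have hf := finite_Iio hom (w := γ) hγ
  have : Finite (Set.Iio γ) := hf.to_subtype
  have : Finite (Set.Iio γ → Bool) := inferInstance
  refine Set.Finite.countable ?_
  refine Set.Finite.of_injOn (f := fun (x : Node om j) (ξ : Set.Iio γ) => x.bit ξ.1)
    (t := Set.univ) (fun _ _ => Set.mem_univ _) ?_ Set.finite_univ
  intro x hx y hy hxy
  have hxl : x.len = γ := hx
  have hyl : y.len = γ := hy
  refine Node.eq_of_le_of_len ⟨(hxl.trans hyl.symm).le, fun ξ hξ => ⟨?_, ?_⟩⟩
    (hxl.trans hyl.symm)
  · exact congrFun hxy ⟨ξ, hxl ▸ hξ⟩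
  · have h2 : ξ < om := (hxl ▸ hξ).trans hγ
    rw [x.mark_out ξ (Or.inr h2), y.mark_out ξ (Or.inr h2)]

include hom hj in
lemma not_embedsInto (T : Type v) [PartialOrder T] (hT : IsTree T) (hT1 : IsOmegaOneTree hT) :
    ¬ EmbedsInto (Node om j) T := by
  rintro ⟨e, he, hlt⟩
  have hh : ∀ t : T, nodeHeight hT t < Ordinal.omega 1 := by
    intro t
    by_contra hcon
    obtain ⟨y, _, hy⟩ := exists_pred hT (not_lt.1 hcon)
    have h0 : Level hT (Ordinal.omega 1) = ∅ := hT1.1.1
    have h1 : y ∈ Level hT (Ordinal.omega 1) := hy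
    rw [h0] at h1
    exact h1
  have hshort : Countable {x : Node om j // x.len < om} :=
    (countable_short (j := j) hW hom).to_subtype
  let f : {x : Node om j // x.len < om} → Ordinal.{v} :=
    fun x => Order.succ (nodeHeight hT (e x.1))
  have hlim : Order.IsSuccLimit (Ordinal.omega.{v} 1) := by
    rw [← Cardinal.ord_aleph]
    exact Cardinal.isSuccLimit_ord (Cardinal.aleph0_le_aleph 1)
  have hf : ∀ i, f i < Ordinal.omega 1 := fun i => hlim.succ_lt (hh _)
  have hδ : ⨆ i, f i < Ordinal.omega 1 := Ordinal.iSup_lt_omega_one hf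
  have hle : ∀ i : {x : Node om j // x.len < om}, nodeHeight hT (e i.1) < ⨆ i, f i := fun i =>
    (Order.lt_succ _).trans_le (Ordinal.le_iSup f i)
  generalize (⨆ i, f i) = δ at hδ hle
  -- nodes of small height
  have hsmall : {t : T | nodeHeight hT t < δ}.Countable := by
    have h1 : {t : T | nodeHeight hT t < δ} = ⋃ α ∈ Set.Iio δ, Level hT α := by
      ext t
      simp [Level]
    rw [h1]
    refine Set.Countable.biUnion ?_ fun α _ => hT1.2 α
    rw [← Cardinal.le_aleph0_iff_set_countable, Cardinal.mk_Iio_ordinal]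
    rw [← Cardinal.ord_aleph, Cardinal.lt_ord, ← Cardinal.succ_aleph0, Order.lt_succ_iff] at hδ
    exact Cardinal.lift_le_aleph0.2 hδ
  let g : W → T := fun w => e (branchNode om j w)
  have hg : Function.Injective g := by
    intro w w' hww
    by_contra hne
    obtain ⟨ξ, hξ, hd⟩ := hj w w' hne
    have h1 := congrFun (congrArg Node.bit (he hww)) ξ
    simp only [branchNode, if_pos hξ] at h1
    exact hd h1
  have hunc : Uncountable W := by
    rw [← Cardinal.aleph0_lt_mk_iff, card_W hW]
    exact Cardinal.aleph0_lt_aleph_one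
  have hK1 : {w | nodeHeight hT (g w) < δ}.Countable := hsmall.preimage hg
  have hK : ¬ {w | δ ≤ nodeHeight hT (g w)}.Countable := by
    intro hc
    have h1 : (Set.univ : Set W).Countable := by
      refine (hK1.union hc).mono ?_
      intro w _
      exact lt_or_ge (nodeHeight hT (g w)) δ
    exact Set.not_countable_univ h1
  have hproj : ∀ w : {w | δ ≤ nodeHeight hT (g w)}, ∃ t ≤ g w.1, nodeHeight hT t = δ :=
    fun w => exists_pred hT w.2
  choose p hp1 hp2 using hproj
  have hninj : ¬ Function.Injective p := by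
    intro hinj
    apply hK
    have h1 : (Set.range p).Countable := (hT1.2 δ).mono (by
      rintro _ ⟨w, rfl⟩
      exact hp2 w)
    have h2 : Countable {w | δ ≤ nodeHeight hT (g w)} := by
      have := h1.to_subtype
      exact (Set.rangeFactorization_injective.2 hinj).countable
    exact h2
  rw [Function.not_injective_iff] at hninj
  obtain ⟨w, w', hpw, hne⟩ := hninj
  have hne' : w.1 ≠ w'.1 := fun h => hne (Subtype.ext h)
  obtain ⟨ξ, hξ, hd⟩ := hj w.1 w'.1 hne'
  have h1 : Ordinal.typein (α := W) (· < ·) ξ < Ordinal.omega0 := by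
    rw [← hom]
    exact (Ordinal.typein_lt_typein (α := W) (· < ·)).2 hξ
  have h2 : Order.succ (Ordinal.typein (α := W) (· < ·) ξ) < Ordinal.omega0 :=
    Ordinal.isSuccLimit_omega0.succ_lt h1
  obtain ⟨γ, hγ⟩ := exists_typein hW (h2.trans Ordinal.omega0_lt_omega_one)
  have h3 : γ < om := by
    rw [← Ordinal.typein_lt_typein (α := W) (· < ·), hom, hγ]
    exact h2
  have h4 : ξ < γ := by
    rw [← Ordinal.typein_lt_typein (α := W) (· < ·), hγ]
    exact Order.lt_succ _
  have hlt' : ∀ v : W, (branchNode om j v).res γ h3.le < branchNode om j v := fun v =>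
    lt_of_le_of_ne (Node.res_le _ _ _) fun h => h3.ne (congrArg Node.len h)
  have key : ∀ v : {w | δ ≤ nodeHeight hT (g w)},
      e ((branchNode om j v.1).res γ h3.le) < p v := by
    intro v
    refine lt_of_lt_of_le_of_height hT ((hlt _ _).1 (hlt' v.1)) (hp1 v) ?_
    rw [hp2 v]
    exact hle ⟨(branchNode om j v.1).res γ h3.le, h3⟩
  have k1 := key w
  have k2 := key w'
  rw [← hpw] at k2
  rcases comparable_of_lt hT k1 k2 with h | h | h
  · exact (Node.len_lt_of_lt ((hlt _ _).2 h)).ne rfl
  · have h5 := congrFun (congrArg Node.bit (he h)) ξ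
    simp only [branchNode, Node.res, if_pos h4, if_pos hξ] at h5
    exact hd h5
  · exact (Node.len_lt_of_lt ((hlt _ _).2 h)).ne rfl

end props

end main

/-- There is a special `(ω₁, ≤ ℵ₁)`-Aronszajn tree, in particular one that can be specialized
without adding reals, which does not embed into any `ω₁`-tree. -/
theorem result : ∃ (S : Type u) (_ : PartialOrder S) (hS : IsTree S),
    IsAronszajn hS ∧ IsSpecial S ∧ SpecializableNoReals S ∧
    ∀ (T : Type v) (_ : PartialOrder T) (hT : IsTree T), IsOmegaOneTree hT →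
      ¬ EmbedsInto S T := by
  let W := (Ordinal.omega.{u} 1).ToType
  have hW : Ordinal.type (α := W) (· < ·) = Ordinal.omega 1 := Ordinal.type_toType _
  obtain ⟨om, hom⟩ := exists_typein hW Ordinal.omega0_lt_omega_one
  -- an injection of `W` into the branches of the binary tree below `om`
  have hcard : #W ≤ #(Set.Iio om → Bool) := by
    have h1 : #(Set.Iio om) = ℵ₀ := by
      have h2 := congrArg Ordinal.card hom
      rw [Ordinal.card_omega0] at h2
      exact h2
    rw [Cardinal.mk_arrow, h1, card_W hW]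
    simp only [Cardinal.mk_bool, Cardinal.lift_aleph0, Cardinal.lift_ofNat,
      Cardinal.two_power_aleph0]
    exact Cardinal.aleph_one_le_continuum
  rw [Cardinal.le_def] at hcard
  obtain ⟨i⟩ := hcard
  classical
  let j : W → W → Bool := fun w ξ => if h : ξ < om then i w ⟨ξ, h⟩ else false
  have hj : ∀ w w', w ≠ w' → ∃ ξ, ξ < om ∧ j w ξ ≠ j w' ξ := by
    intro w w' hne
    by_contra hcon
    push Not at hcon
    apply hne
    apply i.injective
    funext ξ
    have h1 := hcon ξ.1 ξ.2
    have h2 : ξ.1 < om := ξ.2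
    simpa only [j, dif_pos h2] using h1
  have hsp : IsSpecial (Node om j) := isSpecial_node (countable_Iic hW)
  exact ⟨Node om j, inferInstance, isTree_node, isAronszajn_node hW, hsp, hsp.specializable,
    fun T _ hT hT1 => not_embedsInto hW hom hj T hT hT1⟩

end Pool.Agent.Results.MP_6e75db_lc.SpecialNotEmbedding
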